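import Pool.Agent.Lib.MP_751085_ag.ZC.T.Dual

/-! Duality for a torsion group: a character that vanishes on the common kernel of a group of
characters agrees with one of them on any finite set. -/

namespace Pool.Agent.ZCy.F

theorem h_dual {A : Type} [AddCommGroup A] (hA : ∀ a : A, ∃ N : ℕ, 0 < N ∧ N • a = 0)
    (G : AddSubgroup (A →+ AddCircle (1 : ℚ))) (φ : A →+ AddCircle (1 : ℚ))
    (h : ∀ a, (∀ χ ∈ G, χ a = 0) → φ a = 0) (s : Finset A) :
    ∃ χ ∈ G, ∀ a ∈ s, χ a = φ a := by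
  classical
  choose N hN hNa using hA
  let M : ℕ := ∏ a ∈ s, N a
  have hM : 0 < M := Finset.prod_pos fun a _ => hN a
  have hMa : ∀ (f : A →+ AddCircle (1 : ℚ)) (a : s), M • f a = 0 := fun f a => by
    obtain ⟨k, hk⟩ : N a ∣ M := Finset.dvd_prod_of_mem N a.2
    rw [← map_nsmul, hk, mul_comm, mul_smul, hNa, smul_zero, map_zero]
  let ev : (A →+ AddCircle (1 : ℚ)) →+ (s → AddCircle (1 : ℚ)) :=
    { toFun := fun f a => f a
      map_zero' := rfl
      map_add' := fun _ _ => rfl }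
  have key := tdual (B := AddCircle (1 : ℚ)) (ι := s) (j := AddMonoidHom.id _)
    (fun _ _ e => e) hM (G.map ev) (by
      rintro _ ⟨f, -, rfl⟩ i
      exact hMa f i) (z := ev φ) (fun i => hMa φ i) (fun n hn => by
      have e : ∀ f : A →+ AddCircle (1 : ℚ), ∑ i, n i • ev f i = f (∑ i : s, n i • (i : A)) :=
        fun f => by
          rw [map_sum]
          exact Finset.sum_congr rfl fun i _ => (map_nsmul f _ _).symm
      rw [e]
      exact h _ fun χ hχ => by rw [← e]; exact hn _ ⟨χ, hχ, rfl⟩)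
  obtain ⟨χ, hχ, e⟩ := key
  exact ⟨χ, hχ, fun a ha => congrFun e ⟨a, ha⟩⟩

end Pool.Agent.ZCy.F
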