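import Pool.Agent.Lib.MP_751085_ag.ZF.U.Cyc
import Pool.Agent.Lib.MP_751085_ag.ZF.H.Dual

/-! From cycles on the curves to a family that is orthogonal to the Brauer group. -/

namespace Pool.Agent.ZCy.F

open Pool.Agent.ZFN Uw Module Filter
open scoped Classical

theorem h_abs {A V : Type} [AddCommGroup A] {Z : V → Type} [∀ v, AddCommGroup (Z v)]
    (d : ∀ v, Z v →+ ℤ) (π : ∀ v, Z v →+ A →+ AddCircle (1 : ℚ))
    (hA : ∀ a : A, ∃ N : ℕ, 0 < N ∧ N • a = 0)
    (hf : ∀ a, ∃ S : Set V, S.Finite ∧ ∀ v ∉ S, ∀ z, π v z a = 0) (y : ∀ v, Z v)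
    (hR : ∀ (v : V) (U : Ultrafilter (Finset A)) (z : Finset A → Z v), (∀ i, d v (z i) = 0) →
      ∃ z₀, d v z₀ = 0 ∧ ∀ a, ∀ᶠ i in U, π v (z i) a = π v z₀ a)
    (h : ∀ a, (∀ v z, d v z = 0 → π v z a = 0) → ∑ᶠ v, π v (y v) a = 0) :
    ∃ z : ∀ v, Z v, (∀ v, d v (z v) = d v (y v)) ∧ ∀ a, ∑ᶠ v, π v (z v) a = 0 := by
  have fin : ∀ (w : ∀ v, Z v) a, (Function.support fun v => π v (w v) a).Finite := fun w a => by
    obtain ⟨S, hS, h1⟩ := hf a
    exact hS.subset fun v hv => by_contra fun e => hv (h1 v e _)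
  let ψ : (∀ v, Z v) →+ A →+ AddCircle (1 : ℚ) :=
    AddMonoidHom.mk' (fun w => AddMonoidHom.mk' (fun a => ∑ᶠ v, π v (w v) a) fun a b =>
      (finsum_congr fun v => map_add _ _ _).trans (finsum_add_distrib (fin w a) (fin w b)))
      fun w w' => AddMonoidHom.ext fun a => Eq.trans (finsum_congr fun v => by simp)
        (finsum_add_distrib (fin w a) (fin w' a))
  have hψ : ∀ w a, ψ w a = ∑ᶠ v, π v (w v) a := fun _ _ => rfl
  choose χ h1 h2 using h_dual hA ((AddSubgroup.pi Set.univ fun v => (d v).ker).map ψ) (ψ y)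
    fun a ha => h a fun v z hz => by
      have e := ha _ ⟨Pi.single v z, fun u _ => by
        by_cases e : u = v
        · subst e
          simpa using hz
        · simp [Pi.single_eq_of_ne e], rfl⟩
      rwa [hψ, finsum_eq_single _ v fun u e => by simp [Pi.single_eq_of_ne e],
        Pi.single_eq_same] at e
  choose w h3 h4 using h1
  choose z₀ h5 h6 using fun v => hR v (Ultrafilter.of atTop) (fun s => w s v)
    fun s => h3 s v trivial
  refine ⟨y - z₀, fun v => by simp [h5], fun a => ?_⟩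
  obtain ⟨S, hS, h9⟩ := hf a
  obtain ⟨s, e1, e2⟩ := (((eventually_ge_atTop ({a} : Finset A)).filter_mono
    (Ultrafilter.of_le atTop)).and ((eventually_all_finite hS).2 fun v _ => h6 v a)).exists
  have e3 : ψ z₀ a = ψ y a := by
    rw [← h2 s _ (e1 (Finset.mem_singleton_self _)), ← h4]
    refine finsum_congr fun v => ?_
    by_cases hv : v ∈ S
    · exact (e2 v hv).symm
    · exact (h9 v hv _).trans (h9 v hv _).symm
  rw [← hψ, map_sub, AddMonoidHom.sub_apply, e3, sub_self]

variable {k : Type} [Field k] {X : Var k}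

section

variable {K : Type} [Field K] [Algebra k K] {C : Gen k X.N} {a b : BR X.F}

theorem hg_ind {P : C.var.Cyc K → Prop} (h0 : P 0) (h1 : ∀ y z, P y → P z → P (y + z))
    (h : ∀ (p : C.var.Pt (Cb K)) (v : Fin (X.N + 1) → Var.res p) (m : ℤ),
      p.1 = (fun i => (v i : Cb K)) → C.var.On v → P (Finsupp.single p m)) (z : C.var.Cyc K) :
    P z := by
  induction z using Finsupp.induction_linear with
  | zero => exact h0
  | add y z hy hz => exact h1 y z hy hz
  | single p m =>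
    obtain ⟨v, hv⟩ := exists_up (X := X) (pt_mem_res p)
    exact h p v m hv ((on_up (X := C.var)).1 (hv ▸ pt_on p))

theorem hg_single {p : C.var.Pt (Cb K)} {v : Fin (X.N + 1) → Var.res p}
    (h : p.1 = fun i => (v i : Cb K)) (m : ℤ) (a : BR X.F) :
    X.prG (Finsupp.single p m) a = m • corN K (Var.res p) (X.vl a _ v) :=
  (prG_single p m a).trans (congrArg _ ((congrArg _ h).trans (ptv_up v)))

theorem prG_add' (E : EvApi X) (hC : X.Sub C) (ha : a ∈ X.Bw) (hb : b ∈ X.Bw) (z : C.var.Cyc K) :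
    X.prG z (a + b) = X.prG z a + X.prG z b := by
  induction z using hg_ind with
  | h0 => exact (add_zero (0 : BR K)).symm
  | h1 y z hy hz =>
    rw [prG_add, prG_add, prG_add, hy, hz]
    exact add_add_add_comm (X.prG y a) _ _ _
  | h p v m hv h =>
    rw [hg_single hv, hg_single hv, hg_single hv, E.val_add a ha b hb _ v (hC _ _ h)]
    exact ((zsmulAddGroupHom (α := BR K) m).comp (corN K _)).map_add _ _

variable (X) in
/-- the group structure -/
@[reducible] noncomputable def bwGroup : AddCommGroup X.Bw :=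
  @AddSubgroup.toAddCommGroup _ (brGroup X.F (SC X.F)) X.Bw

attribute [local instance] bwGroup

/-- the pairing as a homomorphism in the class -/
noncomputable def prA (E : EvApi X) (hC : X.Sub C) (z : C.var.Cyc K) : X.Bw →+ BR K :=
  AddMonoidHom.mk' (fun a : X.Bw => X.prG z a.1) fun a b => prG_add' E hC a.2 b.2 z

theorem prG_const (E : EvApi X) (hC : X.Sub C) (β : BR k) (z : C.var.Cyc K) :
    X.prG z (rs (algebraMap k X.F) β) = Var.deg z • rs (algebraMap k K) β := by
  induction z using hg_ind with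
  | h0 => exact (zero_zsmul (rs (algebraMap k K) β)).symm
  | h1 y z hy hz =>
    rw [prG_add, deg_add, hy, hz]
    exact (add_zsmul (rs (algebraMap k K) β) _ _).symm
  | h p v m hv h =>
    have := pt_fin p
    rw [hg_single hv, deg_single, E.val_const β _ v (hC _ _ h),
      IsScalarTower.algebraMap_eq k K (Var.res p), ← res_res (Ω' := SC (K)), corN_res]
    exact ((mul_zsmul (rs (algebraMap k K) β) _ _).trans (congrArg _ (natCast_zsmul _ _))).symm

theorem prG_sub (y z : C.var.Cyc K) (a : BR X.F) : X.prG (y - z) a = X.prG y a - X.prG z a :=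
  map_sub (prH K C a) y z

theorem deg_sub (y z : X.Cyc K) : Var.deg (y - z) = Var.deg y - Var.deg z :=
  map_sub (degH X K) y z

end

attribute [local instance] Place.field Place.alg bwGroup

theorem prG_aa (hA : X.AA) {a : BR X.F} (ha : a ∈ X.Bw) : ∃ S : Set (Place k), S.Finite ∧
    ∀ v ∉ S, ∀ C : Gen k X.N, X.Sub C → ∀ z : C.var.Cyc v.K, X.prG z a = 0 := by
  obtain ⟨S, hS, h⟩ := hA a ha
  refine ⟨S, hS, fun v hv C hC z => ?_⟩
  induction z using hg_ind with
  | h0 => rfl
  | h1 y z hy hz =>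
    rw [prG_add, hy, hz]
    exact add_zero (0 : BR v.K)
  | h p w m hw h' =>
    have := pt_fin p
    rw [hg_single hw, h v hv _ w (hC _ _ h')]
    exact ((zsmulAddGroupHom (α := BR v.K) m).comp (corN v.K _)).map_zero

theorem h_glue (E : EvApi X) (hA : X.AA) (j : ∀ v : Place k, BR v.K →+ AddCircle (1 : ℚ))
    (hj : ∀ v, Function.Injective (j v)) (C : Place k → Gen k X.N) (hC : ∀ v, X.Sub (C v))
    (y : ∀ v : Place k, (C v).var.Cyc v.K)
    (hR : ∀ (v : Place k) (ι : Type) (U : Ultrafilter ι) (z : ι → (C v).var.Cyc v.K),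
      (∀ i, Var.deg (z i) = 0) → ∃ z₀ : (C v).var.Cyc v.K, Var.deg z₀ = 0 ∧
        ∀ a ∈ X.Bw, ∀ᶠ i in U, X.prG (z i) a = X.prG z₀ a)
    (h : ∀ a ∈ X.Bw, (∀ (v : Place k) (z : (C v).var.Cyc v.K), Var.deg z = 0 → X.prG z a = 0) →
      ∑ᶠ v, j v (X.prG (y v) a) = 0) :
    ∃ z : ∀ v : Place k, X.Cyc v.K, (∀ v, Var.deg (z v) = Var.deg (y v)) ∧
      ∀ a ∈ X.Bw, ∑ᶠ v, j v (Var.pr (z v) a) = 0 := by
  obtain ⟨z, h1, h2⟩ := h_abs (A := X.Bw) (Z := fun v : Place k => (C v).var.Cyc v.K)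
    (fun v => degH _ _) (fun v => AddMonoidHom.mk' (fun z => (j v).comp (prA E (hC v) z))
      fun z z' => AddMonoidHom.ext fun a =>
        (congrArg (j v) (prG_add z z' a.1)).trans ((j v).map_add _ _))
    (fun a => (exists_torsion a.1).imp fun N hN => ⟨hN.1, Subtype.ext hN.2⟩)
    (fun a => (prG_aa hA a.2).imp fun S hS => ⟨hS.1, fun v hv z =>
      (congrArg (j v) (hS.2 v hv _ (hC v) z)).trans (j v).map_zero⟩) y
    (fun v U z hz => (hR v _ U z hz).imp fun z₀ h0 => ⟨h0.1, fun a => (h0.2 a a.2).mono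
      fun i hi => congrArg (j v) hi⟩)
    fun a ha => h a a.2 fun v z hz => hj v ((ha v z hz).trans (j v).map_zero.symm)
  choose z' h3 h4 using fun v => push (hC v) (z v)
  exact ⟨z', fun v => (h3 v).trans (h1 v), fun a ha =>
    (finsum_congr fun v => congrArg _ (h4 v a)).trans (h2 ⟨a, ha⟩)⟩

end Pool.Agent.ZCy.F
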