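import Pool.Agent.Lib.MP_751085_ag.ZC.PDefs

/-! Primary decomposition of a torsion element. -/

namespace Pool.Agent.ZCy.F

theorem h_split {A : Type} [AddCommGroup A] (Q : A → Prop) (hQ0 : Q 0)
    (hQ : ∀ a b, Q a → Q b → Q (a + b)) {a : A} {N : ℕ} (hN : 0 < N) (ha : N • a = 0)
    (h : ∀ l : ℕ, l.Prime → ∀ m : ℕ, Prim l (m • a) → Q (m • a)) : Q a := by
  have key : ∀ M : ℕ, 0 < M → ∀ m : ℕ, M • m • a = 0 → Q (m • a) := by
    intro M
    induction M using Nat.recOnPosPrimePosCoprime with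
    | zero => exact fun h => absurd h (lt_irrefl 0)
    | one => exact fun _ m e => (one_nsmul (m • a)).symm.trans e ▸ hQ0
    | prime_pow p r hp _ => exact fun _ m e => h p hp m ⟨r, e⟩
    | coprime u v hu hv huv iu iv =>
      intro _ m e
      obtain ⟨s, -, hs⟩ := Nat.exists_mul_mod_eq_one_of_coprime huv hv
      have h1 : u * s = v * (u * s / v) + 1 := by
        have := Nat.div_add_mod (u * s) v
        omega
      obtain ⟨w, rfl⟩ : ∃ w, u = w + 1 := ⟨u - 1, by omega⟩
      obtain ⟨t, ht⟩ : ∃ t, t = (w + 1) * s / v := ⟨_, rfl⟩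
      rw [← ht] at h1
      have h2 : m • a = ((w + 1) * s * m) • a + (w * v * t * m) • a := by
        rw [← add_nsmul, h1, show (v * t + 1) * m + w * v * t * m = m + t * ((w + 1) * v * m) by ring,
          add_nsmul, mul_nsmul', mul_nsmul', e, nsmul_zero, add_zero]
      refine h2 ▸ hQ _ _ (iv (by omega) _ ?_) (iu (by omega) _ ?_)
      · rw [← mul_nsmul', show v * ((w + 1) * s * m) = s * ((w + 1) * v * m) by ring, mul_nsmul',
          mul_nsmul', e, nsmul_zero]
      · rw [← mul_nsmul', show (w + 1) * (w * v * t * m) = w * t * ((w + 1) * v * m) by ring,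
          mul_nsmul', mul_nsmul' a ((w + 1) * v), e, nsmul_zero]
  exact one_nsmul a ▸ key N hN 1 (by rw [one_nsmul, ha])

end Pool.Agent.ZCy.F
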