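import Pool.Agent.Lib.MP_751085_ag.ZF.H.Glue
import Pool.Agent.Lib.MP_751085_ag.ZF.H.Split

/-! A class on the section that kills the cycles of degree zero of the curves pairs like a class
of the ambient variety. -/

namespace Pool.Agent.ZCy.F

open Pool.Agent.ZFN Uw Module
open scoped Classical

theorem hc_abs {A B V : Type} [AddCommGroup A] [AddCommGroup B] {G : V → Type}
    [∀ v, AddCommGroup (G v)] (py : ∀ v, A →+ G v) (pz : ∀ v, B →+ G v) {δ N : ℕ} {a : A}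
    (hN : 0 < N) (ha : N • a = 0) (h1 : ∀ l : ℕ, l.Prime → l ∣ δ → ∀ m : ℕ, Prim l (m • a) →
      ∃ b, ∀ v, py v (m • a) = pz v b) {b₀ : B} (h2 : ∀ v, δ • py v a = pz v b₀) :
    ∃ b, ∀ v, py v a = pz v b := by
  refine h_split (fun a => ∃ b, ∀ v, py v a = pz v b) ⟨0, by simp⟩ ?_ hN ha fun l hl m hp => ?_
  · rintro a a' ⟨b, h⟩ ⟨b', h'⟩
    exact ⟨b + b', fun v => by rw [map_add, map_add, h, h']⟩
  by_cases hd : l ∣ δ
  · exact h1 l hl hd m hp
  obtain ⟨r, hr⟩ := hp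
  obtain ⟨u, w, huw⟩ := Nat.isCoprime_iff_coprime.2
    (((Nat.Prime.coprime_iff_not_dvd hl).2 hd).symm.pow_right r)
  refine ⟨u • m • b₀, fun v => ?_⟩
  rw [map_zsmul, map_nsmul (pz v), ← h2, smul_comm m, ← map_nsmul _ m, ← natCast_zsmul _ δ, smul_smul,
    eq_sub_of_add_eq huw, sub_smul, one_smul, mul_smul, natCast_zsmul, ← map_nsmul, hr, map_zero,
    smul_zero, sub_zero]

variable {k : Type} [Field k] {X : Var k} {Y : Gen k X.N}

attribute [local instance] bwGroup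

theorem h_claim (eX : EvApi X) (eY : EvApi Y.var) {V : Type} {K : V → Type} [∀ v, Field (K v)]
    [∀ v, Algebra k (K v)] {C : V → Gen k X.N} (hC : ∀ v, Y.var.Sub (C v))
    {y : ∀ v, (C v).var.Cyc (K v)} {z : ∀ v, X.Cyc (K v)} (hy : ∀ v, Var.deg (y v) = 1)
    (hz : ∀ v, Var.deg (z v) = 1) {M : Type} [Field M] [Algebra k M] [FiniteDimensional k M]
    {Q : Fin (X.N + 1) → M} (hQ : ∀ v, (C v).var.On Q)
    (hL : ∀ l : ℕ, l.Prime → l ∣ finrank k M → ∀ a ∈ Y.var.Bw, Prim l a → ∃ b, X.Mt Y a b ∧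
      ((∀ v (κ : (C v).var.Cyc (K v)), Var.deg κ = 0 → X.prG κ b = 0) →
        ∀ v, X.prG (y v) b = Var.pr (z v) b))
    {a : BR Y.F} (ha : a ∈ Y.var.Bw)
    (h0 : ∀ v (κ : (C v).var.Cyc (K v)), Var.deg κ = 0 → Y.var.prG (C := C v) κ a = 0) :
    ∃ b ∈ X.Bw, ∀ v, Y.var.prG (C := C v) (y v) a = Var.pr (z v) b := by
  obtain ⟨N, hN, hNa⟩ := exists_torsion a
  refine (hc_abs (A := Y.var.Bw) (B := X.Bw) (G := fun v => BR (K v))
    (fun v => prA eY (hC v) (y v)) (fun v => prA (C := slf X) eX sub_slf (z v))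
    (δ := finrank k M) (a := ⟨a, ha⟩) hN (Subtype.ext hNa) (fun l hl hd m hp => ?_)
    (b₀ := ⟨_, eX.const (corN k M (Y.var.vl a M Q))⟩) fun v => ?_).elim fun b hb => ⟨b, b.2, hb⟩
  · obtain ⟨b, h3, h4⟩ := hL l hl hd (m • a) (Y.var.Bw.nsmul_mem ha m)
      (hp.imp fun r hr => congrArg Subtype.val hr)
    refine ⟨⟨b, h3.2.1⟩, fun v => (prG_mt (hC v) h3 _).trans (h4 (fun v κ hκ => ?_) v)⟩
    rw [← prG_mt (hC v) h3 κ, prG_nsmul eY (hC v) ha κ m, h0 v κ hκ]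
    exact nsmul_zero (M := BR (K v)) m
  obtain ⟨P, h3, h4⟩ := ptc_bc eY (hC v) (hQ v) (K v)
  have h5 := h0 v (finrank k M • y v - P) (by
    rw [deg_sub, h3, ← degH_apply, map_nsmul, degH_apply, hy, nsmul_one, sub_self])
  have h6 := prG_const (C := slf X) eX sub_slf (corN k M (Y.var.vl a M Q)) (z v)
  rw [show Var.deg (X := (slf X).var) (z v) = 1 from hz v] at h6
  rw [prG_sub, h4 a ha] at h5
  exact (map_nsmul (prH (X := Y.var) (K v) (C v) a) _ _).symm.trans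
    ((sub_eq_zero (G := BR (K v))).1 h5 |>.trans (h6.trans (one_zsmul _)).symm)

end Pool.Agent.ZCy.F
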