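import Pool.Agent.Lib.MP_751085_ag.ZF.H.Claim
import Pool.Agent.Lib.MP_751085_ag.ZF.C.Defs3
import Pool.Agent.Lib.MP_751085_ag.ZF.T.Iface
import Pool.Agent.Lib.MP_751085_ag.ZF.L.Iface
import Pool.Agent.Lib.MP_751085_ag.ZF.X.Defs
import Pool.Agent.Lib.MP_751085_ag.ZF.N.C4

/-! The induction step and the induction over function fields. -/

namespace Pool.Agent.ZCy.F

open Pool.Agent.ZFN Pool.Agent.ZFy.U Uw Module Filter MvPolynomial
open scoped Classical Topology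

attribute [local instance] Place.field Place.alg

/-- the statements of the other blocks -/
structure HHyp : Prop where
  cm : CMainS
  zex : ZEX
  gdv : GDV
  p45 : P45
  lp : ZFd.LEFp
  ll : LEFl
  tg : TGood
  nu : NU
  ua : UAPI
  re : REAL
  co : COVER
  ev : EV
  aa : AAA

theorem hh_deg (p : ℕ) [h : Fact p.Prime] (k : Type) [Field k] [CharP k p] (m : ℕ) :
    ∃ d, m ≤ d ∧ (d : k) ≠ 0 := by
  refine ⟨p * m + 1, by nlinarith [h.1.pos], ?_⟩
  rw [Nat.cast_add, Nat.cast_mul, CharP.cast_eq_zero, zero_mul, zero_add, Nat.cast_one]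
  exact one_ne_zero

variable {k : Type} [Field k] {X : Var k}

theorem hh_eq {K : Type} [Field K] [Algebra k K] {C : Gen k X.N} (E : EvApi X) (hC : X.Sub C)
    {b : BR X.F} (hb : b ∈ X.Bw) (h : Kills X K b fun x => X.On x) {y : C.var.Cyc K} {z : X.Cyc K}
    (e : Var.deg y = Var.deg z) : X.prG y b = Var.pr z b := by
  obtain ⟨y', h1, h2⟩ := push hC y
  have h3 := (kills_slf E hb).1 h (y' - z) (by rw [deg_sub, h1, e, sub_self])
  rw [← prG_slf, prG_sub] at h3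
  exact (h2 b).symm.trans ((sub_eq_zero (G := BR K)).1 h3)

theorem hh_step (H : HHyp) (F₀ : Type) [Field F₀] [Finite F₀] [Algebra (RatFunc F₀) k]
    [FiniteDimensional (RatFunc F₀) k] (j : ∀ v : Place k, BR v.K →+ AddCircle (1 : ℚ))
    (hj : ∀ v, Function.Injective (j v)) {n : ℕ} (hn : 4 ≤ n) (hX : X.Nice n)
    (h : ∀ Y : Var k, Y.Nice (n - 1) → Y.ZCw j) : X.ZCw j := by
  rintro ⟨z, hz, h0⟩
  obtain ⟨p, _⟩ := CharP.exists F₀
  have : Fact p.Prime := ⟨CharP.char_is_prime F₀ p⟩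
  have : CharP k p := charP_of_injective_ringHom
    ((algebraMap (RatFunc F₀) k).comp (algebraMap F₀ (RatFunc F₀))).injective p
  have : Infinite k :=
    .of_injective _ ((algebraMap (RatFunc F₀) k).injective.comp (RatFunc.algebraMap_injective F₀))
  have := place_nonempty (k := k) F₀
  have hσ : Fintype.card (Fin (n - 2)) + 2 = n := by rw [Fintype.card_fin]; omega
  have hσ' : Fintype.card (Option (Fin (n - 2))) + 1 = n := by rw [Fintype.card_option]; omega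
  have eX := H.ev k X n hX (by omega)
  choose ν hν using H.nu k F₀
  obtain ⟨J, d₁, Gd, hJ, hs, hGd, h45⟩ := H.p45 p k F₀ X n hX (by omega) _ hσ' ν
    fun v => ⟨hν v, H.ua k X n hX _ hσ' _ _ (hν v).1⟩
  obtain ⟨d₂, hC⟩ := H.cm k (Place k) (fun v => v.1) (fun v => v.K) place_ne_top place_wapx X n hX
    hn _ hσ J hJ
  obtain ⟨d₀, hp⟩ := H.lp p k F₀ X n hX hn
  obtain ⟨d₄, hZ⟩ := H.zex k X n hX _ hσ' J hJ
  obtain ⟨d₅, e1, e2⟩ := hh_deg p k (d₁ + d₄)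
  obtain ⟨c₀, Φ₀, z₀, rfl⟩ := hZ d₅ (by omega) e2
  obtain ⟨S₀, h45⟩ := h45 c₀ Φ₀ z₀ (by omega)
  have hG : ∀ c Φ, X.ZCh J c Φ → ∀ᶠ v : Place k in cofinite,
      Gd c Φ v ∧ X.GoodV c Φ v.1.toSubring := fun c Φ hc => (hGd c Φ hc).and
    (H.gdv k X n hX _ hσ' _ _ (fun v : Place k => v.1.toSubring) (place_fs F₀) c Φ hc.sm hc.Φ0
      hc.Ψ0 hc.dp)
  obtain ⟨S, hS₀, hS⟩ : ∃ S : Finset (Place k), S₀ ⊆ S ∧
      ∀ v ∉ S, Gd c₀ Φ₀ v ∧ X.GoodV c₀ Φ₀ v.1.toSubring :=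
    ⟨S₀ ∪ (hG _ _ z₀).toFinset, Finset.subset_union_left, fun v hv => by_contra fun e =>
      hv (Finset.mem_union_right _ ((Set.Finite.mem_toFinset _).2 e))⟩
  obtain ⟨e₀, Λ, hΛ, eΛ⟩ := Nat.exists_eq_pow_mul_and_not_dvd
    (finrank_pos (R := k) (M := J.K)).ne' p (Fact.out : p.Prime).ne_one
  have hΛk : (Λ : k) ≠ 0 := fun e => hΛ ((CharP.cast_eq_zero_iff k p Λ).1 e)
  choose T hT using fun v : Place k => H.co k X n hX (by omega) v.K (ν v) (hν v).1 (z v) Λ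
    fun e => hΛk ((algebraMap k v.K).injective (by rw [map_natCast, e, map_zero]))
  obtain ⟨d₃, h45⟩ := h45 S hS₀ T
  obtain ⟨d, e3, e4⟩ := hh_deg p k (d₀ + d₂ + d₃ + c₀.d)
  obtain ⟨fv, W, hfv, h45⟩ := h45 d (by omega)
  obtain ⟨c, c', Φ, L, L', Y, c'', zc, dc, hl, lin, sm, hY, sec, hsm, hyp, sm', hC⟩ :=
    hC _ hG (LfL X n Λ) (H.ll k X n hX hn _ hσ Λ hΛk J) c₀ Φ₀ z₀ S hS d (by omega) (by omega) e4
      fv W hfv
  choose C g c1 c2 c3 c4 c5 c6 using hC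
  obtain ⟨hit, kp⟩ := h45 C g fun v => ⟨c2 v, c3 v, c5 v, fun hv => by
    obtain ⟨cb, Φb, a1, a2, a3, a4⟩ := c6 v hv
    exact ⟨cb, Φb, a1, a2, a3.1, a4⟩⟩
  have eY := H.ev k Y.var (n - 1) hY (by omega)
  have sX : ∀ v, X.Sub (C v) := fun v M _ _ x hx => ((c2 v M x).1 hx).1
  choose cb Φb _ _ c7 eb c8 using c6
  have tg := fun v hv => H.tg k F₀ X n hX _ hσ' v _ _ (C v) (g v) _ (c7 v hv).2 (c2 v) (c8 v hv)
  have ey : ∀ v : Place k, ∃ y : (C v).var.Cyc v.K, Var.deg y = 1 := fun v => by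
    by_cases hv : v ∈ S
    · exact (hT v (C v) (sX v) (hit v hv) 0).imp fun y hy => hy.1.trans (hz v)
    · obtain ⟨m, hm⟩ := (tg v hv).1
      obtain ⟨L₁, x₁, _, a1, a2, a3⟩ := hm m le_rfl
      obtain ⟨L₂, x₂, _, a4, a5, a6⟩ := hm (m + 1) (Nat.le_succ m)
      obtain ⟨y₁, a7, -⟩ := ptc eX (sX v) a2 a3
      obtain ⟨y₂, a8, -⟩ := ptc eX (sX v) a5 a6
      exact ⟨y₂ - y₁, by rw [deg_sub, a7, a8, a1, a4]; simp⟩
  choose y hy using id ey
  obtain ⟨z', h1, h2⟩ := h_glue eY (H.aa k F₀ Y.var eY) j hj C c4 y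
    (fun v => H.re k Y.var (n - 1) hY (by omega) (C v) (c1 v) (c4 v) v.K (ν v) (hν v).1 (ey v))
    fun a ha h3 => by
      refine (h_claim eX eY c4 hy hz (Q := J.Q ⟨0, hs⟩)
        (fun v => (c2 v _ _).2 ⟨hJ.on _, fun i => ((c3 v i).2 _).1⟩) ?_ ha h3).elim
          fun b e => (finsum_congr fun v => congrArg _ (e.2 v)).trans (h0 b e.1)
      intro l hl' hd a ha hla
      by_cases hlp : l = p
      · subst hlp
        obtain ⟨b, h4, h5⟩ := hp d (by omega) _ Y (dc ▸ lin.d ▸ c'.hf _) hY sec (fun Ω _ _ x hx u _ e =>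
          funext fun i => by_contra fun e' => hsm Ω x hx (by
            rw [Fintype.sum_unique] at e
            exact (Submodule.smul_mem_iff _ e').1 e)) a ha hla
        exact ⟨b, h4, fun h6 v => hh_eq eX (sX v) h4.2.1 (kp b h4.2.1 h5
          (fun v => (kills_iff eX (sX v) h4.2.1).2 (h6 v)) v) ((hy v).trans (hz v).symm)⟩
      have hlΛ : l ∣ Λ := ((Nat.coprime_primes hl' Fact.out).2 hlp).pow_right e₀
        |>.dvd_of_dvd_mul_left (eΛ ▸ hd)
      obtain ⟨b, h4, h5⟩ := hl c' L L' Y c'' rfl lin sm hY sec hyp sm' l hl' hlΛ a ha hla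
      refine ⟨b, h4, fun h6 v => ?_⟩
      by_cases hv : v ∈ S
      · obtain ⟨r, hr⟩ := h5
        obtain ⟨t, ht⟩ := pow_dvd_pow_of_dvd hlΛ r
        obtain ⟨y', h7, h8⟩ := hT v (C v) (sX v) (hit v hv) r
        have h9 := h6 v (y v - y') (by rw [deg_sub, h7, hy, hz, sub_self])
        rw [prG_sub] at h9
        refine ((sub_eq_zero (G := BR v.K)).1 h9).trans (h8 b h4.2.1 ?_)
        rw [ht]
        exact (mul_nsmul b _ _).trans ((congrArg _ hr).trans (nsmul_zero (M := BR X.F) t))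
      · exact hh_eq eX (sX v) h4.2.1 ((tg v hv).2 l (fun e => hΛk (by
          obtain ⟨t, rfl⟩ := hlΛ
          rw [Nat.cast_mul, e, zero_mul])) b h4.2.1 h5 ((kills_iff eX (sX v) h4.2.1).2 (h6 v)))
          ((hy v).trans (hz v).symm)
  obtain ⟨w, hw⟩ := h Y.var hY ⟨z', fun v => (h1 v).trans (hy v), h2⟩
  obtain ⟨w', h3, -⟩ := push (C := Y) (fun M _ _ x hx => ((sec M x).1 hx).1) w
  exact ⟨w', h3.trans hw⟩

theorem ffMain_of (H : HHyp) (k : Type) [Field k] (F₀ : Type) [Field F₀] [Finite F₀]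
    [Algebra (RatFunc F₀) k] [FiniteDimensional (RatFunc F₀) k]
    (j : ∀ v : Place k, BR v.K →+ AddCircle (1 : ℚ)) (hj : ∀ v, Function.Injective (j v))
    (h : ∀ X : Var k, X.Nice 3 → X.ZCw j) (n : ℕ) (hn : 4 ≤ n) (X : Var k) (hX : X.Nice n) :
    X.ZCw j := by
  induction n, hn using Nat.le_induction generalizing X with
  | base => exact hh_step H F₀ j hj le_rfl hX h
  | succ n hn ih => exact hh_step H F₀ j hj (by omega) hX fun Y hY => ih Y hY

end Pool.Agent.ZCy.F
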